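import Pool.Agent.Q62.RN.Defs

/-! Project RN (MP_3f57e5_an): statements of the lemmas. -/

open MeasureTheory Filter Topology Set
open scoped ContDiff ENNReal

namespace Pool.Agent.Q62.RN

/-- **A1 (Hausdorff measure on the segment).** `Complex.ofReal` is an isometry, so
`μH[1]` restricted to its image of `Icc 0 l` is the image of Lebesgue measure restricted to `Icc 0 l`
(`Isometry.map_hausdorffMeasure`, `MeasureTheory.hausdorffMeasure_real`, `MeasurableEmbedding`).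
The other three are consequences. -/
def S_A1 : Prop := ∀ l : ℝ, 0 < l →
  H1.restrict (S0 l) = Measure.map Complex.ofReal (volume.restrict (Icc 0 l)) ∧
  H1 (S0 l) = ENNReal.ofReal l ∧ IsCompact (S0 l) ∧
  (∀ φ : ℂ → ℝ, Continuous φ → ∫ p in S0 l, φ p ∂H1 = ∫ x in (0:ℝ)..l, φ x) ∧
  (∀ a b : ℝ, 0 ≤ a → a ≤ b → b ≤ l → ∀ h : ℝ, 0 < h →
    H1 (S0 l ∩ rect a b h) = ENNReal.ofReal (b - a))

/-- **A2 (the comb).** `T n` is the union of `S0 l` and of the `n` vertical segments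
`k l / n + i [0, l / (2 n)]`, `k < n` (for `n ≥ n₀`, where `n₀` is so large that the
`l / (2 n₀)`-neighbourhood of the compact set `S0 l` is contained in `Ω`; use the sequence
`T (n + n₀)`). It is compact and connected, its length is at most `l + n · l / (2 n) = 3 l / 2`
(subadditivity; a vertical segment of length `s` has `ℋ¹`-measure `s`, it is the isometric image of
`Icc 0 s`). For continuous `φ`, `∫_{T n} φ dℋ¹ = ∫_0^l φ + ∑_{k<n} ∫_0^{l/(2n)} φ (k l / n + i y) dy`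
(the pieces are disjoint up to single points, which have `ℋ¹`-measure zero), and the sum is
`∑_k (l / (2 n)) φ (k l / n) + o(1)` by uniform continuity on a compact neighbourhood, which
converges to `(1/2) ∫_0^l φ`. -/
def S_A2 : Prop := ∀ (l : ℝ) (Ω : Set ℂ), 0 < l → IsOpen Ω → S0 l ⊆ Ω →
  ∃ T : ℕ → Set ℂ, (∀ n, IsCompact (T n) ∧ IsConnected (T n) ∧ T n ⊆ Ω ∧
    H1 (T n) ≤ ENNReal.ofReal (3 / 2 * l)) ∧ WLim T (mu0 l)

/-- **B1 (points have zero capacity).** Take `φ : ℂ → ℝ` smooth, `0 ≤ φ ≤ 1`, `φ = 1` on the ball of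
radius `1/2` about `0`, `φ = 0` outside the ball of radius `1` (`ContDiffBump`), and
`u z = (1/n) ∑_{k<n} φ (2^k (z - p) / r')`, `r' < r`. The gradients of the summands
are supported in the disjoint annuli `r' 2^(-k-1) ≤ |z - p| ≤ r' 2^(-k)` (up to circles of measure
zero, or: the gradient of a function vanishes where the function is locally constant, also on the
closure, so the supports of the gradients meet in points where both gradients vanish), and each has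
the Dirichlet integral `D = ∫ g2 φ` (scaling by `s` multiplies `g2` by `s²` and the area by `s⁻²`,
`Measure.integral_comp_smul`, `finrank ℝ ℂ = 2`). So `∫ g2 u = D / n`, `u p = 1`. -/
def S_B1 : Prop := ∀ (p : ℂ) (r ε : ℝ), 0 < r → 0 < ε → ∃ u : ℂ → ℝ, ContDiff ℝ ∞ u ∧
  HasCompactSupport u ∧ tsupport u ⊆ Metric.ball p r ∧ (∀ z, 0 ≤ u z) ∧ u p = 1 ∧
  ∫ z, g2 u z ≤ ε

/-- **B2 (a set of finite energy contains the segment).** (To be proved from `S_B1`.) If `S ⊉ S0 l`,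
then, `S` being relatively closed and `S0 l ⊆ Ω`, there is by `Load.atoms` a point `y ∈ (0, l)` with
`fp {y} > 0` and `y ∉ S` (a point `x ∈ S0 l \ S` has a neighbourhood disjoint from `S`). Take
`r > 0` with `ball y r ⊆ Ω`, `ball y r ∩ S = ∅`, `0 ∉ ball y r`, and `u` as in
B1 for `ε`; `c = fp {y} > 0`. The function `s u` is a test function and
`J (s u) = s² / 2 ∫ g2 u + 0 - s (∫ u ∂fp - u 0) ≤ s² ε / 2 - s c` (`u ≥ 0`, `u y = 1`,
`u 0 = 0`; `∫ u ∂fp ≥ u y * fp {y}`). With `s = c / ε` this is `- c² / (2 ε)`, and `ε → 0` gives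
`E = ⊥`. -/
def S_B2 : Prop := ∀ (l m : ℝ) (Ω : Set ℂ) (fp : Measure ℂ) (S : Set ℂ), 0 < l → 0 < m → IsOpen Ω →
  S0 l ⊆ Ω → Load l fp → RelClosed Ω S →
  E Ω m fp (Measure.dirac 0) (H1.restrict S) ≠ ⊥ → S0 l ⊆ S

/-- **B3 (the load exists).** `fp = ∑_j 2^(-j-1) δ_{q j}` (`Measure.sum`), `q` a sequence that is
dense in `(0, l)`. -/
def S_B3 : Prop := ∀ l : ℝ, 0 < l → ∃ fp : Measure ℂ, Load l fp ∧ fp {(0:ℂ)} = 0

/-- **B4 (the load is bounded by the gradient on the segment).** `fp` is a probability measure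
carried by the segment, so `|∫ u ∂fp - u 0| ≤ max_{x ∈ [0, l]} |u x - u 0|`, and
`|u x - u 0| ≤ ∫_0^l |gx u| ≤ √(l ∫_0^l (gx u)²)` by Cauchy and Schwarz. -/
def S_B4 : Prop := ∀ (l : ℝ) (fp : Measure ℂ) (u : ℂ → ℝ), 0 < l → Load l fp → ContDiff ℝ ∞ u →
  HasCompactSupport u →
  |(∫ p, u p ∂fp) - ∫ p, u p ∂(Measure.dirac (0:ℂ))| ≤ √(l * ∫ x in (0:ℝ)..l, gx u x ^ 2)

/-- **B5 (finiteness of the energy, and near minimizers do not degenerate).** (From `S_A1`, `S_B1`,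
`S_B4`.) Put `T u = ∫_0^l (gx u)²`.
(1) `J m fp δ₀ (H1.restrict (S0 l)) u ≥ m / 2 T u - √(l T u) ≥ - l / (2 m)`.
(2) the same for `mu0 l` (its second term is `3/2` times as large).
(3) There is a test function with `J m fp δ₀ (mu0 l) u < 0`: take a test function `v ≥ 0` with
`v y = 1` for an atom `y` of `fp` and with `v 0 = 0` (B1); `J (s v) = A s² - B s`,
`B ≥ fp {y} > 0`, is negative for small `s > 0`. Hence `E < 0`, say `E ≤ -e`, `e > 0` real.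
Take `τ = e² / (4 l)`. If `J u ≤ - e / 2` then `√(l T u) ≥ ∫ u ∂fp - u 0 ≥ e / 2`, as the other
two terms of `J` are nonnegative; so `T u ≥ τ`. -/
def S_B5 : Prop := ∀ (l m : ℝ) (Ω : Set ℂ) (fp : Measure ℂ), 0 < l → 0 < m → IsOpen Ω →
  S0 l ⊆ Ω → Load l fp →
  E Ω m fp (Measure.dirac 0) (H1.restrict (S0 l)) ≠ ⊥ ∧
  ∃ A τ η : ℝ, 0 < τ ∧ 0 < η ∧ E Ω m fp (Measure.dirac 0) (mu0 l) = (A : EReal) ∧
    ∀ u, Test Ω u → J m fp (Measure.dirac 0) (mu0 l) u ≤ A + η →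
      τ ≤ ∫ x in (0:ℝ)..l, gx u x ^ 2

/-- **C1 (shadow).** Let `ν` be the image of `H1.restrict (R ∩ {a ≤ re ≤ b})` under `re`, a finite
measure on the line, and `E` the image of `R ∩ {a ≤ re ≤ b}` under `re` (which is 1-Lipschitz), so
that the outer measure of `E` is at most `ℋ¹(R ∩ {a ≤ re ≤ b}) ≤ 5/8 (b - a)`
(`LipschitzWith.hausdorffMeasure_image_le`, `hausdorffMeasure_real`). The complement of a measurable
hull of `E` in `(a, b)` has measure at least `3/8 (b - a)`, so it contains a compact set `C` of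
measure at least `5/16 (b - a)`. As `ν C = 0`, there is an open `U`, `C ⊆ U ⊆ (a, b)`, `ν U ≤ δ`
(outer regularity). Take `φ` smooth, `0 ≤ φ ≤ 1`, `φ = 1` on `C`, with compact support in `U`
(`exists_contDiff_tsupport_subset` / `exists_contMDiff_support_eq...` / smooth Urysohn). -/
def S_C1 : Prop := ∀ (R : Set ℂ) (a b δ : ℝ), MeasurableSet R → a < b → 0 < δ → H1 R < ⊤ →
  H1 (R ∩ {p | a ≤ p.re ∧ p.re ≤ b}) ≤ ENNReal.ofReal (5 / 8 * (b - a)) →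
  ∃ φ : ℝ → ℝ, ContDiff ℝ ∞ φ ∧ (∀ x, 0 ≤ φ x ∧ φ x ≤ 1) ∧ tsupport φ ⊆ Ioo a b ∧
    (b - a) / 4 ≤ ∫ x, φ x ∧ ∫ p in R, φ p.re ∂H1 ≤ δ

/-- **C2 (auxiliary functions).** A smooth cut-off function and a smooth plateau function
(`ContDiffBump`). -/
def S_C2 : Prop := (∃ (χ : ℝ → ℝ) (K : ℝ), Chi χ K) ∧ ∀ a b : ℝ, a < b → ∃ ψ, Plateau a b ψ

/-- **C3 (the correction for one cell).** (From `S_A1`, `S_C1`.) Let `R = (S \ S0 l) ∩ rect a b h`, `φ`
as in C1 for `R` and `δ / 4`, `c = (∫ ψ) / ∫ φ ∈ [0, 4]`, `g = c φ - ψ`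
(so `|g| ≤ 4`, `∫ g = 0`, `tsupport g ⊆ (a, b)`), `G x = ∫_a^x g` (smooth, `|G| ≤ 4 (b - a)`,
`tsupport G ⊆ (a, b)`), `w p = G p.re * χ (p.im / h)`. Then `gx w p = g p.re χ (p.im / h)`,
`gy w p = G p.re χ' (p.im / h) / h`.
Mass: `S ∩ rect` is contained in the union of `R` and `S0 l ∩ rect a b h`, so its length is at
most `5/8 (b - a) + (b - a)`.
Gain: `∫_S gx w = ∫_{S0 l} gx w + ∫_{S \ S0 l} gx w`, the first is `∫_0^l g = 0` (as
`(a, b) ⊆ (0, l)` and `χ 0 = 1`), the second is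
`c ∫_{S \ S0 l} φ χ - ∫_{S \ S0 l} ψ χ ≤ 4 ∫_R φ - 3/8 (b - a) ≤ δ - 3/8 (b - a)` (`χ (p.im / h)` vanishes
outside the strip `|p.im| ≤ h`, `φ p.re` outside `a ≤ p.re ≤ b`). -/
def S_C3 : Prop := ∀ (l a b h K δ : ℝ) (χ ψ : ℝ → ℝ) (S : Set ℂ), 0 < l → 0 ≤ a → a < b → b ≤ l →
  0 < h → 0 < δ → Chi χ K → Plateau a b ψ → MeasurableSet S → S0 l ⊆ S → H1 S < ⊤ →
  Good l a b h χ ψ S → ∃ w, Cell a b h K δ S w

/-- **C4 (the sets `S n` are good for large `n`).** (From `S_A1`.) Let `F = rect a b h`, compact. For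
`η > 0` take a continuous `φ` with `indicator F 1 ≤ φ ≤ 1` and
`∫ φ ∂(mu0 l) ≤ mu0 l F + η = 3/2 (b - a) + η` (e.g. `φ = thickenedIndicator`, or
`φ p = max 0 (1 - dist(p, F) / ε)`, dominated convergence as `ε → 0`). Then
`H1 (S n ∩ F) ≤ ∫_{S n} φ ≤ 3/2 (b - a) + 2 η` for large `n`, and
`H1 ((S n \ S0 l) ∩ F) = H1 (S n ∩ F) - H1 (S0 l ∩ F) ≤ 1/2 (b - a) + 2 η ≤ 5/8 (b - a)`.
And `∫_{S n \ S0 l} χ ψ = ∫_{S n} χ ψ - ∫_{S0 l} χ ψ → 3/2 ∫_0^l ψ - ∫_0^l ψ ≥ 7/16 (b - a)`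
(`χ 0 = 1`). -/
def S_C4 : Prop := ∀ (l a b h K : ℝ) (χ ψ : ℝ → ℝ) (S : ℕ → Set ℂ), 0 < l → 0 ≤ a → a < b → b ≤ l →
  0 < h → Chi χ K → Plateau a b ψ → (∀ n, MeasurableSet (S n)) → (∀ n, S0 l ⊆ S n) →
  (∀ n, H1 (S n) < ⊤) → WLim S (mu0 l) → ∀ᶠ n in atTop, Good l a b h χ ψ (S n)

/-- **D1 (uniform continuity and Riemann sums).** `B` is a bound for `|gx u|`, `|gy u|`; `gx u` is
uniformly continuous (continuous with compact support); `rect 0 l h` is contained in `Ω` for small `h`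
(`S0 l` is compact, `Ω` open). -/
def S_D1 : Prop := ∀ (l : ℝ) (Ω : Set ℂ) (u : ℂ → ℝ), 0 < l → IsOpen Ω → S0 l ⊆ Ω → Test Ω u →
  (∃ B : ℝ, 0 < B ∧ ∀ p, |gx u p| ≤ B ∧ |gy u p| ≤ B) ∧
  (∀ κ > 0, ∃ ρ > 0, ∀ p q : ℂ, ‖p - q‖ ≤ ρ → |gx u p - gx u q| ≤ κ) ∧
  (∃ h₀ > 0, rect 0 l h₀ ⊆ Ω) ∧
  Tendsto (fun N : ℕ => ∑ k ∈ Finset.range N, gx u ((k * (l / N) : ℝ) : ℂ) ^ 2 * (l / N)) atTop
    (𝓝 (∫ x in (0:ℝ)..l, gx u x ^ 2))

/-- **D2 (sum of the corrections).** `d = l / N`, `W = ∑_{k<N} (a k / 64) w k`, where `w k` is a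
correction for the cell `[k d, (k+1) d]` with `δ = d / 64`, `|a k| ≤ B`, and
`|gx u p - a k| ≤ κ` on `rect (k d) ((k+1) d) h`. At every point at most one of the `w k` is
nonzero, and the same for the gradients (they vanish outside the support). So
`|W| ≤ B d / 16`, `|gx W| ≤ B / 16`, `|gy W| ≤ B K d / (16 h)`, `gx W ^ 2 = ∑ (a k / 64)² (gx (w k))²`,
and everything vanishes outside `rect 0 l h`, which has area `2 h l`. The test function
`u + W` satisfies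
`J (u + W) - J u = [∫ gx u gx W + gy u gy W + (gx W)² / 2 + (gy W)² / 2]
  + m [∫_S gx u gx W + (gx W)² / 2 + gy u gy W + (gy W)² / 2] - (∫ W ∂fp - W 0)`.
The first bracket is at most `2 h l (B² / 16 + B² K d / (16 h) + B² / 512 + B² K² d² / (512 h²))`.
The last bracket is at most `2 · B d / 16`.
In the second bracket `∫_S gx u gx W = ∑_k (a k / 64) ∫_S gx u gx (w k)` and
`∫_S gx u gx (w k) ≤`  (for `a k ≥ 0`; symmetric else) `a k ∫_S gx (w k) + 4 κ H1 (S ∩ rect)`, so that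
`(a k / 64) ∫_S gx u gx (w k) ≤ (a k)² / 64 · (- 3/8 d + d / 64) + (B / 64) · 4 κ · 13/8 d`, and
`∫_S (a k / 64)² (gx (w k))² / 2 ≤ (a k)² / 8192 · 16 · 13/8 d = (a k)² · 26 d / 8192`.
Since `(3/8 - 1/64) / 64 - 26 / 8192 = 46/8192 - 26/8192 = 20/8192 ≥ 1/512`, the sum of these terms is at most
`- 1/512 ∑ (a k)² d + B κ l`. The terms with `gy` are at most
`(B² K d / (16 h) + B² K² d² / (512 h²)) · 2 l` (`H1 S ≤ 2 l`).
All in all `J (u + W) ≤ J u - m / 512 ∑ (a k)² d + Err`. -/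
def S_D2 : Prop := ∀ (l h K B κ m : ℝ) (N : ℕ) (Ω : Set ℂ) (S : Set ℂ) (u : ℂ → ℝ) (a : ℕ → ℝ)
  (w : ℕ → ℂ → ℝ) (fp : Measure ℂ), 0 < l → 0 < h → 0 ≤ K → 0 < B → 0 < κ → 0 < m → 0 < N →
  rect 0 l h ⊆ Ω → MeasurableSet S → S0 l ⊆ S → H1 S ≤ ENNReal.ofReal (2 * l) → Test Ω u →
  (∀ p, |gx u p| ≤ B ∧ |gy u p| ≤ B) → IsProbabilityMeasure fp →
  (∀ k < N, |a k| ≤ B ∧
    (∀ p ∈ rect (k * (l / N)) ((k + 1) * (l / N)) h, |gx u p - a k| ≤ κ) ∧
    Cell (k * (l / N)) ((k + 1) * (l / N)) h K (l / N / 64) S (w k)) →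
  Test Ω (fun p => u p + ∑ k ∈ Finset.range N, a k / 64 * w k p) ∧
  J m fp (Measure.dirac 0) (H1.restrict S) (fun p => u p + ∑ k ∈ Finset.range N, a k / 64 * w k p) ≤
    J m fp (Measure.dirac 0) (H1.restrict S) u
      - m / 512 * ∑ k ∈ Finset.range N, a k ^ 2 * (l / N)
      + 2 * h * l * (B ^ 2 * (1 + K * (l / N) / h) ^ 2) + B * (l / N)
      + m * (B * κ * l + 2 * l * B ^ 2 * (K * (l / N) / h + (K * (l / N) / h) ^ 2))

/-- **D3 (the gain).** (From `S_A1`, `S_C2`, `S_C3`, `S_C4`, `S_D1`, `S_D2`.) Choose `κ` small, then `h`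
small (`h ≤ ρ/2`, `rect 0 l h ⊆ Ω`), then `N` large (`l / N ≤ ρ / 2`, `K l / (N h) ≤` small,
Riemann sum close), `a k = gx u (k l / N)`; for large `n` the sets `S n` are good for all `k < N` and
`J (H1.restrict (S n)) u ≤ J (mu0 l) u + ε` (weak convergence applied to the continuous function
`g2 u`). -/
def S_D3 : Prop := ∀ (l m : ℝ) (Ω : Set ℂ) (fp : Measure ℂ) (S : ℕ → Set ℂ) (u : ℂ → ℝ), 0 < l →
  0 < m → IsOpen Ω → S0 l ⊆ Ω → IsProbabilityMeasure fp → Test Ω u →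
  (∀ n, MeasurableSet (S n)) → (∀ n, S0 l ⊆ S n) →
  (∀ n, H1 (S n) ≤ ENNReal.ofReal (3 / 2 * l)) → WLim S (mu0 l) →
  ∀ ε > 0, ∀ᶠ n in atTop, ∃ v, Test Ω v ∧
    J m fp (Measure.dirac 0) (H1.restrict (S n)) v ≤
      J m fp (Measure.dirac 0) (mu0 l) u - m / 512 * (∫ x in (0:ℝ)..l, gx u x ^ 2) + ε

end Pool.Agent.Q62.RN
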