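import Pool.Agent.Q62.RN.Fin
import Pool.Agent.Q203.RN.A1
import Pool.Agent.Q222.RN.A2
import Pool.Agent.Q162.RN.B1
import Pool.Agent.Q162.RN.B2
import Pool.Agent.Q297.RN.B3
import Pool.Agent.Q162.RN.B4
import Pool.Agent.Q162.RN.B5
import Pool.Agent.Q53.RN.C1
import Pool.Agent.Q53.RN.C2
import Pool.Agent.Q222.RN.C3
import Pool.Agent.Q222.RN.C4
import Pool.Agent.Q222.RN.D1
import Pool.Agent.Q222.RN.D2
import Pool.Agent.Q222.RN.D3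

/-! Project RN (MP_3f57e5_an): all lemmas together. -/

open MeasureTheory Filter Topology Set
open scoped ContDiff ENNReal

namespace Pool.Agent.Q62.RN

theorem all (l m : ℝ) (Ω : Set ℂ) (hl : 0 < l) (hm : 0 < m) (hΩ : IsOpen Ω) (hS : S0 l ⊆ Ω) :
    ∃ f : SignedMeasure ℂ, f.totalVariation (S0 l)ᶜ = 0 ∧
      Es Ω m f (H1.restrict (S0 l)) ≠ ⊥ ∧
      (∃ T : ℕ → Set ℂ, (∀ n, IsCompact (T n) ∧ IsConnected (T n) ∧ T n ⊆ Ω ∧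
        H1 (T n) ≤ ENNReal.ofReal (3 / 2 * l)) ∧ WLim T (mu0 l)) ∧
      ∃ A c : ℝ, 0 < c ∧ Es Ω m f (mu0 l) = (A : EReal) ∧
        ∀ S : ℕ → Set ℂ, (∀ n, RelClosed Ω (S n)) → (∀ n, H1 (S n) ≤ ENNReal.ofReal (3 / 2 * l)) →
          WLim S (mu0 l) →
          ∀ᶠ n in atTop, Es Ω m f (H1.restrict (S n)) ≤ ((A - c : ℝ) : EReal) :=
  fin (fun l m Ω hl hm hΩ hS => main Q222.RN.t_A2 Q162.RN.t_B2 Q297.RN.t_B3
    (Q162.RN.t_B5 Q203.RN.t_A1)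
    (Q222.RN.t_D3 Q203.RN.t_A1 Q53.RN.t_C2 (Q222.RN.t_C3 Q203.RN.t_A1 Q53.RN.t_C1)
      (Q222.RN.t_C4 Q203.RN.t_A1) Q222.RN.t_D1 Q222.RN.t_D2) l m Ω hl hm hΩ hS) l m Ω hl hm hΩ hS

end Pool.Agent.Q62.RN
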