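import Mathlib

/-! Project RN (MP_3f57e5_an): definitions. The plane is `ℂ`. -/

open MeasureTheory Filter Topology Set
open scoped ContDiff ENNReal

namespace Pool.Agent.Q62.RN

/-- `∂u/∂x` -/
noncomputable def gx (u : ℂ → ℝ) (p : ℂ) : ℝ := fderiv ℝ u p 1

/-- `∂u/∂y` -/
noncomputable def gy (u : ℂ → ℝ) (p : ℂ) : ℝ := fderiv ℝ u p Complex.I

/-- `|∇u|²` -/
noncomputable def g2 (u : ℂ → ℝ) (p : ℂ) : ℝ := gx u p ^ 2 + gy u p ^ 2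

/-- test functions: `u ∈ C_c^∞(Ω)` -/
def Test (Ω : Set ℂ) (u : ℂ → ℝ) : Prop :=
  ContDiff ℝ ∞ u ∧ HasCompactSupport u ∧ tsupport u ⊆ Ω

/-- the functional whose infimum is the energy; the load is `fp - fm` -/
noncomputable def J (m : ℝ) (fp fm μ : Measure ℂ) (u : ℂ → ℝ) : ℝ :=
  1 / 2 * (∫ p, g2 u p) + m / 2 * (∫ p, g2 u p ∂μ) - ((∫ p, u p ∂fp) - ∫ p, u p ∂fm)

/-- the energy of the measure `μ` -/
noncomputable def E (Ω : Set ℂ) (m : ℝ) (fp fm μ : Measure ℂ) : EReal :=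
  ⨅ u : {u : ℂ → ℝ // Test Ω u}, ((J m fp fm μ u.1 : ℝ) : EReal)

/-- the segment from `0` to `l` -/
def S0 (l : ℝ) : Set ℂ := Complex.ofReal '' Icc 0 l

/-- `ℋ¹` on the plane -/
noncomputable abbrev H1 : Measure ℂ := Measure.hausdorffMeasure 1

/-- `ℋ¹ ⌞ S n → μ` weakly* -/
def WLim (S : ℕ → Set ℂ) (μ : Measure ℂ) : Prop :=
  ∀ φ : ℂ → ℝ, Continuous φ →
    Tendsto (fun n => ∫ p in S n, φ p ∂H1) atTop (𝓝 (∫ p, φ p ∂μ))

/-- `S ⊆ Ω` is relatively closed in `Ω` -/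
def RelClosed (Ω S : Set ℂ) : Prop := S ⊆ Ω ∧ ∀ p ∈ Ω, p ∈ closure S → p ∈ S

/-- the measure `(3/2) ℋ¹ ⌞ S0` -/
noncomputable def mu0 (l : ℝ) : Measure ℂ := (3 / 2 : ℝ≥0∞) • H1.restrict (S0 l)

/-- the closed rectangle `[a, b] × [-h, h]` -/
def rect (a b h : ℝ) : Set ℂ := {p | a ≤ p.re ∧ p.re ≤ b ∧ |p.im| ≤ h}

/-- the properties of the load that are used: `fp` is a probability measure on `S0 l`, `fp` has atoms at
a dense set of points of the segment, none of them `0` -/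
structure Load (l : ℝ) (fp : Measure ℂ) : Prop where
  prob : IsProbabilityMeasure fp
  supp : fp (S0 l)ᶜ = 0
  atoms : ∀ x ∈ Icc (0:ℝ) l, ∀ r > 0, ∃ y ∈ Ioo (0:ℝ) l, |x - y| < r ∧ 0 < fp {(y : ℂ)}

/-- a cut-off function for the direction `y`, with derivative bounded by `K` -/
structure Chi (χ : ℝ → ℝ) (K : ℝ) : Prop where
  smooth : ContDiff ℝ ∞ χ
  nonneg : ∀ y, 0 ≤ χ y
  le_one : ∀ y, χ y ≤ 1
  one : ∀ y, |y| ≤ 1 / 2 → χ y = 1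
  supp : ∀ y, χ y ≠ 0 → |y| < 1
  hK : 0 ≤ K
  deriv_le : ∀ y, |deriv χ y| ≤ K

/-- a plateau function on `(a, b)` -/
structure Plateau (a b : ℝ) (ψ : ℝ → ℝ) : Prop where
  smooth : ContDiff ℝ ∞ ψ
  nonneg : ∀ x, 0 ≤ ψ x
  le_one : ∀ x, ψ x ≤ 1
  supp : tsupport ψ ⊆ Ioo a b
  int_ge : 7 / 8 * (b - a) ≤ ∫ x, ψ x

/-- `S` is good on the rectangle `[a, b] × [-h, h]` (satisfied by `S n` for large `n`): the part of `S`
outside the segment is at most `5/8 (b-a)` long, and not too short. -/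
structure Good (l a b h : ℝ) (χ ψ : ℝ → ℝ) (S : Set ℂ) : Prop where
  upper : H1 ((S \ S0 l) ∩ rect a b h) ≤ ENNReal.ofReal (5 / 8 * (b - a))
  lower : 3 / 8 * (b - a) ≤ ∫ p in S \ S0 l, χ (p.im / h) * ψ p.re ∂H1

/-- the correction for one cell -/
structure Cell (a b h K δ : ℝ) (S : Set ℂ) (w : ℂ → ℝ) : Prop where
  smooth : ContDiff ℝ ∞ w
  cpt : HasCompactSupport w
  supp : ∀ p, w p ≠ 0 → a < p.re ∧ p.re < b ∧ |p.im| < h
  supp' : ∀ p ∈ tsupport w, a < p.re ∧ p.re < b ∧ |p.im| ≤ h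
  bd : ∀ p, |w p| ≤ 4 * (b - a)
  bdx : ∀ p, |gx w p| ≤ 4
  bdy : ∀ p, |gy w p| ≤ 4 * K * (b - a) / h
  gain : ∫ p in S, gx w p ∂H1 ≤ -(3 / 8) * (b - a) + δ
  mass : H1 (S ∩ rect a b h) ≤ ENNReal.ofReal (13 / 8 * (b - a))

end Pool.Agent.Q62.RN
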