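import Pool.Agent.Q62.RN.Main

/-! Project RN (MP_3f57e5_an): the final form. -/

open MeasureTheory Filter Topology Set
open scoped ContDiff ENNReal

namespace Pool.Agent.Q62.RN

/-- The load as a signed measure. -/
noncomputable def jd (fp : Measure ℂ) [IsProbabilityMeasure fp] (h : fp {(0:ℂ)} = 0) :
    JordanDecomposition ℂ where
  posPart := fp
  negPart := Measure.dirac 0
  posPart_finite := inferInstance
  negPart_finite := inferInstance
  mutuallySingular := by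
    refine ⟨{0}, measurableSet_singleton _, h, ?_⟩
    rw [Measure.dirac_apply' _ (measurableSet_singleton (0:ℂ)).compl]
    simp

/-- energy with a signed measure -/
noncomputable def Es (Ω : Set ℂ) (m : ℝ) (f : SignedMeasure ℂ) (μ : Measure ℂ) : EReal :=
  E Ω m f.toJordanDecomposition.posPart f.toJordanDecomposition.negPart μ

theorem fin (hmain : ∀ (l m : ℝ) (Ω : Set ℂ) (_ : 0 < l) (_ : 0 < m) (_ : IsOpen Ω) (_ : S0 l ⊆ Ω),
    ∃ fp : Measure ℂ, Load l fp ∧ fp {(0:ℂ)} = 0 ∧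
      E Ω m fp (Measure.dirac 0) (H1.restrict (S0 l)) ≠ ⊥ ∧
      (∃ T : ℕ → Set ℂ, (∀ n, IsCompact (T n) ∧ IsConnected (T n) ∧ T n ⊆ Ω ∧
        H1 (T n) ≤ ENNReal.ofReal (3 / 2 * l)) ∧ WLim T (mu0 l)) ∧
      ∃ A c : ℝ, 0 < c ∧ E Ω m fp (Measure.dirac 0) (mu0 l) = (A : EReal) ∧
        ∀ S : ℕ → Set ℂ, (∀ n, RelClosed Ω (S n)) → (∀ n, H1 (S n) ≤ ENNReal.ofReal (3 / 2 * l)) →
          WLim S (mu0 l) →
          ∀ᶠ n in atTop, E Ω m fp (Measure.dirac 0) (H1.restrict (S n)) ≤ ((A - c : ℝ) : EReal))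
    (l m : ℝ) (Ω : Set ℂ) (hl : 0 < l) (hm : 0 < m) (hΩ : IsOpen Ω) (hS : S0 l ⊆ Ω) :
    ∃ f : SignedMeasure ℂ, f.totalVariation (S0 l)ᶜ = 0 ∧
      Es Ω m f (H1.restrict (S0 l)) ≠ ⊥ ∧
      (∃ T : ℕ → Set ℂ, (∀ n, IsCompact (T n) ∧ IsConnected (T n) ∧ T n ⊆ Ω ∧
        H1 (T n) ≤ ENNReal.ofReal (3 / 2 * l)) ∧ WLim T (mu0 l)) ∧
      ∃ A c : ℝ, 0 < c ∧ Es Ω m f (mu0 l) = (A : EReal) ∧
        ∀ S : ℕ → Set ℂ, (∀ n, RelClosed Ω (S n)) → (∀ n, H1 (S n) ≤ ENNReal.ofReal (3 / 2 * l)) →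
          WLim S (mu0 l) →
          ∀ᶠ n in atTop, Es Ω m f (H1.restrict (S n)) ≤ ((A - c : ℝ) : EReal) := by
  obtain ⟨fp, hfp, h0, h1, h2, h3⟩ := hmain l m Ω hl hm hΩ hS
  haveI := hfp.prob
  have hj : (jd fp h0).toSignedMeasure.toJordanDecomposition = jd fp h0 :=
    JordanDecomposition.toJordanDecomposition_toSignedMeasure _
  have hEs : ∀ μ, Es Ω m (jd fp h0).toSignedMeasure μ = E Ω m fp (Measure.dirac 0) μ := by
    intro μ
    unfold Es
    rw [hj]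
    rfl
  refine ⟨(jd fp h0).toSignedMeasure, ?_, ?_, h2, ?_⟩
  · unfold SignedMeasure.totalVariation
    rw [hj]
    have h4 : ((jd fp h0).posPart + (jd fp h0).negPart : Measure ℂ) = fp + Measure.dirac 0 := rfl
    rw [h4]
    rw [Measure.add_apply, hfp.supp, zero_add, Measure.dirac_apply' _ ?_]
    · have : (0:ℂ) ∈ S0 l := ⟨0, ⟨le_rfl, hl.le⟩, by simp⟩
      simp [this]
    · exact (((isCompact_Icc.image Complex.continuous_ofReal).isClosed).measurableSet).compl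
  · rw [hEs]; exact h1
  · obtain ⟨A, c, hc, hA, hall⟩ := h3
    refine ⟨A, c, hc, by rw [hEs]; exact hA, fun S hS1 hS2 hS3 => ?_⟩
    filter_upwards [hall S hS1 hS2 hS3] with n hn
    rw [hEs]
    exact hn

end Pool.Agent.Q62.RN
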