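import Pool.Agent.Q62.RN.Stm

/-! Project RN (MP_3f57e5_an): assembly. -/

open MeasureTheory Filter Topology Set
open scoped ContDiff ENNReal

namespace Pool.Agent.Q62.RN

theorem RelClosed.measurable {Ω S : Set ℂ} (hΩ : IsOpen Ω) (h : RelClosed Ω S) :
    MeasurableSet S := by
  have : S = Ω ∩ closure S := by
    ext p
    exact ⟨fun hp => ⟨h.1 hp, subset_closure hp⟩, fun hp => h.2 p hp.1 hp.2⟩
  rw [this]
  exact hΩ.measurableSet.inter isClosed_closure.measurableSet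

theorem main (a2 : S_A2) (b2 : S_B2) (b3 : S_B3) (b5 : S_B5) (d3 : S_D3) (l m : ℝ) (Ω : Set ℂ)
    (hl : 0 < l) (hm : 0 < m) (hΩ : IsOpen Ω) (hS : S0 l ⊆ Ω) :
    ∃ fp : Measure ℂ, Load l fp ∧ fp {(0:ℂ)} = 0 ∧
      E Ω m fp (Measure.dirac 0) (H1.restrict (S0 l)) ≠ ⊥ ∧
      (∃ T : ℕ → Set ℂ, (∀ n, IsCompact (T n) ∧ IsConnected (T n) ∧ T n ⊆ Ω ∧
        H1 (T n) ≤ ENNReal.ofReal (3 / 2 * l)) ∧ WLim T (mu0 l)) ∧
      ∃ A c : ℝ, 0 < c ∧ E Ω m fp (Measure.dirac 0) (mu0 l) = (A : EReal) ∧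
        ∀ S : ℕ → Set ℂ, (∀ n, RelClosed Ω (S n)) → (∀ n, H1 (S n) ≤ ENNReal.ofReal (3 / 2 * l)) →
          WLim S (mu0 l) →
          ∀ᶠ n in atTop, E Ω m fp (Measure.dirac 0) (H1.restrict (S n)) ≤ ((A - c : ℝ) : EReal) := by
  obtain ⟨fp, hfp, hfp0⟩ := b3 l hl
  obtain ⟨hE, A, τ, η, hτ, hη, hA, hmin⟩ := b5 l m Ω fp hl hm hΩ hS hfp
  refine ⟨fp, hfp, hfp0, hE, a2 l Ω hl hΩ hS, A, m * τ / 1024, by positivity, hA, ?_⟩
  intro S hrel hlen hlim
  by_contra hcon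
  have hfreq : ∃ᶠ n in atTop,
      ((A - m * τ / 1024 : ℝ) : EReal) < E Ω m fp (Measure.dirac 0) (H1.restrict (S n)) := by
    rw [Filter.Frequently]
    intro h
    exact hcon (h.mono fun n hn => not_lt.mp hn)
  obtain ⟨φ, hφ, hφ2⟩ := Filter.extraction_of_frequently_atTop hfreq
  have hsub : ∀ k, S0 l ⊆ S (φ k) := fun k =>
    b2 l m Ω fp (S (φ k)) hl hm hΩ hS hfp (hrel _) (fun h => by
      have := hφ2 k
      rw [h] at this
      exact not_lt_bot this)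
  have hlim2 : WLim (fun k => S (φ k)) (mu0 l) := fun g hg =>
    (hlim g hg).comp hφ.tendsto_atTop
  obtain ⟨u, hu, hu2⟩ : ∃ u, Test Ω u ∧
      J m fp (Measure.dirac 0) (mu0 l) u ≤ A + min η (m * τ / 2048) := by
    have h1 : E Ω m fp (Measure.dirac 0) (mu0 l) < ((A + min η (m * τ / 2048) : ℝ) : EReal) := by
      rw [hA, EReal.coe_lt_coe_iff]
      have : 0 < min η (m * τ / 2048) := lt_min hη (by positivity)
      linarith
    unfold E at h1
    obtain ⟨u, hu⟩ := iInf_lt_iff.mp h1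
    exact ⟨u.1, u.2, (EReal.coe_lt_coe_iff.mp hu).le⟩
  have hT := hmin u hu (hu2.trans (by linarith [min_le_left η (m * τ / 2048)]))
  have := hfp.prob
  have h2 := d3 l m Ω fp (fun k => S (φ k)) u hl hm hΩ hS hfp.prob hu
    (fun k => (hrel _).measurable hΩ) hsub (fun k => hlen _) hlim2 (m * τ / 2048) (by positivity)
  obtain ⟨k, v, hv, hv2⟩ := h2.exists
  have h3 : E Ω m fp (Measure.dirac 0) (H1.restrict (S (φ k))) ≤
      ((J m fp (Measure.dirac 0) (H1.restrict (S (φ k))) v : ℝ) : EReal) :=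
    iInf_le (fun u : {u : ℂ → ℝ // Test Ω u} =>
      ((J m fp (Measure.dirac 0) (H1.restrict (S (φ k))) u.1 : ℝ) : EReal)) ⟨v, hv⟩
  have h4 : J m fp (Measure.dirac 0) (H1.restrict (S (φ k))) v ≤ A - m * τ / 1024 := by
    have h5 := min_le_right η (m * τ / 2048)
    have h6 : m / 512 * τ ≤ m / 512 * ∫ x in (0:ℝ)..l, gx u x ^ 2 :=
      mul_le_mul_of_nonneg_left hT (by positivity)
    have h7 : m / 512 * τ = m * τ / 512 := by ring
    have h8 : m * τ / 512 = m * τ / 2048 * 4 := by ring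
    have h9 : m * τ / 1024 = m * τ / 2048 * 2 := by ring
    linarith
  have h5 := hφ2 k
  exact absurd (h5.trans_le h3) (not_lt.mpr (EReal.coe_le_coe_iff.mpr h4))

end Pool.Agent.Q62.RN
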